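import Mathlib

namespace Pool.Agent.Results.MP_e841a3_pr.Entropy

open MeasureTheory ProbabilityTheory InformationTheory Filter Topology ENNReal Set

lemma kl_upper (μ ν : Measure ℝ) [IsProbabilityMeasure μ] [IsProbabilityMeasure ν] (R : ℝ)
    (hR : 0 < R) (h : μ ≤ ENNReal.ofReal R • ν) : klDiv μ ν ≤ .ofReal (Real.log R) + 1 := by
  have hac : μ ≪ ν := (Measure.absolutelyContinuous_of_le h).trans
    (Measure.smul_absolutelyContinuous)
  have hr : ∀ᵐ x ∂ν, μ.rnDeriv ν x ≤ .ofReal R := by
    refine ae_le_of_forall_setLIntegral_le_of_sigmaFinite (by fun_prop) fun s hs _ => ?_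
    rw [Measure.setLIntegral_rnDeriv hac, setLIntegral_const]
    exact h s
  rw [klDiv_eq_lintegral_klFun_of_ac hac]
  calc _ ≤ ∫⁻ x, (.ofReal (Real.log R) * μ.rnDeriv ν x + 1) ∂ν := by
        refine lintegral_mono_ae ?_
        filter_upwards [hr] with x hx
        have ht : μ.rnDeriv ν x ≠ ∞ := ne_top_of_le_ne_top ofReal_ne_top hx
        have h0 : 0 ≤ (μ.rnDeriv ν x).toReal := toReal_nonneg
        have h1 : (μ.rnDeriv ν x).toReal ≤ R := toReal_le_of_le_ofReal hR.le hx
        conv_rhs => rw [← ofReal_toReal ht]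
        set r := (μ.rnDeriv ν x).toReal
        rw [← ofReal_mul' h0, ← ofReal_one]
        refine le_trans (ofReal_le_ofReal ?_) ofReal_add_le
        rw [klFun_apply]
        rcases h0.eq_or_lt with h2 | h2
        · simp [← h2]
        · have := mul_le_mul_of_nonneg_left (Real.log_le_log h2 h1) h0
          linarith
    _ = _ := by
        rw [lintegral_add_right _ measurable_const, lintegral_const_mul _ (by fun_prop),
          Measure.lintegral_rnDeriv hac]
        simp

lemma kl_lower (μ ν : Measure ℝ) [IsProbabilityMeasure μ] [IsProbabilityMeasure ν] (B : Set ℝ)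
    (h1 : μ B = 1) (L : ℝ) (h2 : ν B ≤ .ofReal (Real.exp (-L))) :
    .ofReal L ≤ klDiv μ ν + 1 := by
  by_cases hac : μ ≪ ν
  swap
  · rw [klDiv_of_not_ac hac]; simp
  rw [klDiv_eq_lintegral_klFun_of_ac hac]
  calc ENNReal.ofReal L = ∫⁻ x in B, .ofReal L * μ.rnDeriv ν x ∂ν := by
        rw [lintegral_const_mul _ (by fun_prop), Measure.setLIntegral_rnDeriv hac, h1, mul_one]
    _ ≤ ∫⁻ x in B, (.ofReal (klFun (μ.rnDeriv ν x).toReal) + .ofReal (Real.exp L)) ∂ν := by
        refine lintegral_mono_ae (ae_restrict_of_ae ?_)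
        filter_upwards [Measure.rnDeriv_ne_top μ ν] with x ht
        have h0 : 0 ≤ (μ.rnDeriv ν x).toReal := toReal_nonneg
        conv_lhs => rw [← ofReal_toReal ht]
        set r := (μ.rnDeriv ν x).toReal
        rw [← ofReal_mul' h0, ← ofReal_add (klFun_nonneg h0) (Real.exp_pos L).le]
        refine ofReal_le_ofReal ?_
        rw [klFun_apply]
        rcases h0.eq_or_lt with h3 | h3
        · simp only [← h3, mul_zero, zero_mul, zero_add, sub_zero]; positivity
        · have := mul_le_mul_of_nonneg_left (Real.add_one_le_exp (L - Real.log r)) h0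
          rw [Real.exp_sub, Real.exp_log h3, mul_div_cancel₀ _ h3.ne'] at this
          linarith
    _ ≤ _ := by
        rw [lintegral_add_right _ measurable_const, setLIntegral_const]
        refine add_le_add (setLIntegral_le_lintegral _ _) ?_
        refine (mul_le_mul_right h2 _).trans (le_of_eq ?_)
        rw [← ofReal_mul (Real.exp_pos L).le, ← Real.exp_add]
        simp

lemma gauss_le (s : Set ℝ) : gaussianReal 0 1 s ≤ volume s := by
  rw [gaussianReal_apply 0 one_ne_zero, ← one_mul (volume s), ← setLIntegral_const]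
  refine lintegral_mono fun x => ?_
  rw [gaussianPDF, ← ofReal_one]
  refine ofReal_le_ofReal ?_
  simp only [gaussianPDFReal, NNReal.coe_one, mul_one, sub_zero]
  have h1 : 1 ≤ √(2 * Real.pi) := Real.one_le_sqrt.mpr (by linarith [Real.pi_gt_three])
  refine mul_le_one₀ (inv_le_one_of_one_le₀ h1) (Real.exp_pos _).le ?_
  rw [Real.exp_le_one_iff]
  nlinarith [sq_nonneg x]

lemma gauss_ge (s : Set ℝ) (hs : MeasurableSet s) (h : s ⊆ Icc (-2) 2) :
    volume s ≤ .ofReal (3 * Real.exp 2) * gaussianReal 0 1 s := by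
  rw [gaussianReal_apply 0 one_ne_zero, ← one_mul (volume s), ← setLIntegral_const,
    ← lintegral_const_mul _ (by fun_prop)]
  refine setLIntegral_mono' hs fun x hx => ?_
  rw [gaussianPDF, ← ofReal_mul (by positivity), ← ofReal_one]
  refine ofReal_le_ofReal ?_
  simp only [gaussianPDFReal, NNReal.coe_one, mul_one, sub_zero]
  have h1 : √(2 * Real.pi) ≤ 3 := Real.sqrt_le_iff.mpr ⟨by norm_num, by linarith [Real.pi_lt_four]⟩
  have h0 : 0 < √(2 * Real.pi) := Real.sqrt_pos.mpr (by positivity)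
  have h2 : 1 ≤ 3 * (√(2 * Real.pi))⁻¹ := by rw [← div_eq_mul_inv, one_le_div h0]; exact h1
  have h3 : 1 ≤ Real.exp 2 * Real.exp (-x ^ 2 / 2) := by
    rw [← Real.exp_add, Real.one_le_exp_iff]
    nlinarith [(h hx).1, (h hx).2]
  calc (1 : ℝ) ≤ (3 * (√(2 * Real.pi))⁻¹) * (Real.exp 2 * Real.exp (-x ^ 2 / 2)) :=
        one_le_mul_of_one_le_of_one_le h2 h3
    _ = _ := by ring

noncomputable def law (a s : ℝ) : Measure ℝ :=
  ENNReal.ofReal (1 / (4 * s)) •
    (volume.restrict (Ioc (-a - s) (-a + s)) + volume.restrict (Ioc (a - s) (a + s)))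

lemma law_prob (a s : ℝ) (hs : 0 < s) : IsProbabilityMeasure (law a s) := by
  constructor
  simp only [law, Measure.smul_apply, Measure.add_apply, Measure.restrict_apply_univ,
    Real.volume_Ioc, smul_eq_mul]
  rw [← ofReal_add (by linarith) (by linarith), ← ofReal_mul (by positivity), ← ofReal_one]
  congr 1
  field_simp
  ring

lemma law_pow (a s : ℝ) (hs : 0 < s) (k : ℕ) : ∫ x, x ^ k ∂(law a s) =
    1 / (4 * s) * (((-a + s) ^ (k + 1) - (-a - s) ^ (k + 1)) / (k + 1) +
      ((a + s) ^ (k + 1) - (a - s) ^ (k + 1)) / (k + 1)) := by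
  have hc : Continuous fun x : ℝ => x ^ k := by fun_prop
  rw [law, integral_smul_measure, integral_add_measure (hc.integrableOn_Ioc) (hc.integrableOn_Ioc),
    ← intervalIntegral.integral_of_le (by linarith), ← intervalIntegral.integral_of_le (by linarith),
    integral_pow, integral_pow, toReal_ofReal (by positivity), smul_eq_mul]

lemma law_ae (a s : ℝ) : ∀ᵐ x ∂(law a s), ∃ e : ℤ, |e| ≤ 1 ∧ |x - e * a| ≤ s := by
  refine Measure.ae_smul_measure (ae_add_measure_iff.mpr ⟨?_, ?_⟩) _
  · filter_upwards [ae_restrict_mem measurableSet_Ioc] with x hx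
    refine ⟨-1, by simp, abs_le.mpr ⟨?_, ?_⟩⟩ <;> push_cast <;> linarith [hx.1, hx.2]
  · filter_upwards [ae_restrict_mem measurableSet_Ioc] with x hx
    refine ⟨1, by simp, abs_le.mpr ⟨?_, ?_⟩⟩ <;> push_cast <;> linarith [hx.1, hx.2]

lemma law_le (a s : ℝ) (hs : 0 < s) (h1 : s ≤ 1) (ha : 0 ≤ a) (ha1 : a ≤ 1) :
    law a s ≤ ENNReal.ofReal (3 * Real.exp 2 / (2 * s)) • gaussianReal 0 1 := by
  refine Measure.le_iff.mpr fun t ht => ?_
  simp only [law, Measure.smul_apply, Measure.add_apply, Measure.restrict_apply ht, smul_eq_mul]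
  have e : ∀ u v : ℝ, -2 ≤ u → v ≤ 2 →
      volume (t ∩ Ioc u v) ≤ .ofReal (3 * Real.exp 2) * gaussianReal 0 1 t := fun u v hu hv =>
    (gauss_ge _ (ht.inter measurableSet_Ioc) fun x hx => ⟨hu.trans hx.2.1.le, hx.2.2.trans hv⟩).trans
      (mul_le_mul_right (measure_mono inter_subset_left) _)
  refine (mul_le_mul_right (add_le_add (e _ _ (by linarith) (by linarith))
    (e _ _ (by linarith) (by linarith))) _).trans (le_of_eq ?_)
  rw [← add_mul, ← mul_assoc, ← ofReal_add (by positivity) (by positivity),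
    ← ofReal_mul (by positivity)]
  congr 2
  field_simp
  ring

theorem result (M : ℝ) (hM : 1 < M) (n : ℕ) (hn : 1 ≤ n) (θ : ℝ) (hθ : θ < 1) :
    ∃ μ : Measure ℝ, IsProbabilityMeasure μ ∧ ∫ x, x ∂μ = 0 ∧ ∫ x, x ^ 2 ∂μ = 1 ∧
      ∫⁻ x, ENNReal.ofReal (x ^ 4) ∂μ ≤ ENNReal.ofReal M ∧
      klDiv μ (gaussianReal 0 1) ≠ ⊤ ∧
      ENNReal.ofReal θ * klDiv μ (gaussianReal 0 1) <
        klDiv ((Measure.pi fun _ : Fin n => μ).map fun ω => (∑ i, ω i) / √n)
          (gaussianReal 0 1) := by
  wlog hθ0 : 0 ≤ θ generalizing θ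
  · obtain ⟨μ, h1, h2, h3, h4, h5, h6⟩ := this 0 one_pos le_rfl
    refine ⟨μ, h1, h2, h3, h4, h5, ?_⟩
    rw [ofReal_of_nonpos (not_le.mp hθ0).le]
    simpa using h6
  set N : ℝ := (2 * n + 1) * (2 * n) with hN
  set c : ℝ := Real.log (3 * Real.exp 2 / 2) with hc
  have hn' : (1 : ℝ) ≤ n := by exact_mod_cast hn
  have hN0 : 0 < N := by positivity
  have t1 : Tendsto (fun L : ℝ => Real.exp (-L)) atTop (𝓝 0) := Real.tendsto_exp_neg_atTop_nhds_zero
  have t2 : Tendsto (fun L : ℝ => (1 + Real.exp (-L)) ^ 4) atTop (𝓝 1) := by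
    simpa using (t1.const_add 1).pow 4
  have t3 : Tendsto (fun L : ℝ => (1 - θ) * L) atTop atTop :=
    tendsto_id.const_mul_atTop (by linarith)
  obtain ⟨L, ⟨⟨l1, l2⟩, l3⟩, l4⟩ := ((((t1.eventually_le_const one_pos).and
    (t2.eventually_le_const hM)).and
    (t3.eventually_gt_atTop (θ * (c + 1) + Real.log N + 1))).and (eventually_ge_atTop (-c))).exists
  set s := Real.exp (-L) with hs
  have s0 : 0 < s := Real.exp_pos _
  have hq : 0 ≤ 1 - s ^ 2 / 3 := by nlinarith
  set a := √(1 - s ^ 2 / 3) with ha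
  have a0 : 0 ≤ a := Real.sqrt_nonneg _
  have a2 : a ^ 2 = 1 - s ^ 2 / 3 := Real.sq_sqrt hq
  have a1 : a ≤ 1 := by nlinarith
  have := law_prob a s s0
  have hU := kl_upper (law a s) (gaussianReal 0 1) _ (by positivity) (law_le a s s0 l1 a0 a1)
  have eU : Real.log (3 * Real.exp 2 / (2 * s)) = c + L := by
    rw [← div_div, Real.log_div (by positivity) s0.ne', hs, Real.log_exp]; ring
  rw [eU, ← ofReal_one, ← ofReal_add (by linarith) zero_le_one] at hU
  refine ⟨law a s, this, ?_, ?_, ?_, ne_top_of_le_ne_top ofReal_ne_top hU, ?_⟩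
  · have := law_pow a s s0 1
    simp only [pow_one] at this
    rw [this]
    ring
  · rw [law_pow a s s0 2]
    field_simp
    push_cast
    linear_combination (12 * s) * a2
  · rw [← one_mul (ENNReal.ofReal M), ← measure_univ (μ := law a s), mul_comm, ← lintegral_const]
    refine lintegral_mono_ae ?_
    filter_upwards [law_ae a s] with x ⟨e, he, hx⟩
    refine ofReal_le_ofReal (le_trans ?_ l2)
    have he' : |(e : ℝ)| ≤ 1 := by exact_mod_cast he
    have h1 : |e * a| ≤ 1 := by
      rw [abs_mul, abs_of_nonneg a0]; exact mul_le_one₀ he' a0 a1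
    have h2 : |x| ≤ 1 + s := by
      have := abs_add_le (x - e * a) (e * a)
      rw [sub_add_cancel] at this
      linarith
    rw [← Even.pow_abs (by decide : Even 4)]
    exact pow_le_pow_left₀ (abs_nonneg _) h2 4
  · have hm : Measurable fun ω : Fin n → ℝ => (∑ i, ω i) / √n := by fun_prop
    have : IsProbabilityMeasure ((Measure.pi fun _ : Fin n => law a s).map
      fun ω => (∑ i, ω i) / √n) := Measure.isProbabilityMeasure_map hm.aemeasurable
    have r1 : 1 ≤ √(n : ℝ) := Real.one_le_sqrt.mpr hn'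
    let B : Set ℝ := ⋃ k ∈ Finset.Icc (-(n : ℤ)) n, Metric.closedBall (k * a / √n) (n * s)
    have hB : MeasurableSet B :=
      Finset.measurableSet_biUnion _ fun _ _ => measurableSet_closedBall
    have hL := kl_lower ((Measure.pi fun _ : Fin n => law a s).map fun ω => (∑ i, ω i) / √n)
      (gaussianReal 0 1) B (by
        rw [Measure.map_apply hm hB, ← measure_univ (μ := Measure.pi fun _ : Fin n => law a s)]
        refine measure_congr (ae_eq_univ.mpr ?_)
        have : ∀ᵐ ω ∂(Measure.pi fun _ : Fin n => law a s),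
            ∀ i, ∃ e : ℤ, |e| ≤ 1 ∧ |ω i - e * a| ≤ s :=
          ae_all_iff.mpr fun i => 
            (Measure.tendsto_eval_ae_ae (μ := fun _ : Fin n => law a s) (i := i)).eventually
              (law_ae a s)
        refine mem_ae_iff.mp ?_
        filter_upwards [this] with ω hω
        choose e he hx using hω
        have k1 : |∑ i, e i| ≤ n := (Finset.abs_sum_le_sum_abs _ _).trans
          ((Finset.sum_le_sum fun i _ => he i).trans (by simp))
        have k2 : |∑ i, (ω i - e i * a)| ≤ n * s := (Finset.abs_sum_le_sum_abs _ _).trans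
          ((Finset.sum_le_sum fun i _ => hx i).trans (by simp))
        simp only [B, mem_preimage, mem_iUnion]
        refine ⟨∑ i, e i, Finset.mem_Icc.mpr (abs_le.mp k1), ?_⟩
        rw [Metric.mem_closedBall, Real.dist_eq, ← sub_div, abs_div,
          abs_of_pos (a := √n) (by linarith)]
        refine (div_le_self (abs_nonneg _) r1).trans ?_
        rw [Finset.sum_sub_distrib, ← Finset.sum_mul] at k2
        push_cast
        exact k2) (L - Real.log N) (by
        refine (gauss_le _).trans ((measure_biUnion_finset_le _ _).trans (le_of_eq ?_))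
        simp only [Real.volume_closedBall, Finset.sum_const, Int.card_Icc, nsmul_eq_mul]
        rw [neg_sub, Real.exp_sub, Real.exp_log hN0, ← ofReal_natCast, ← ofReal_mul (by positivity)]
        congr 1
        have : ((n + 1 - -n : ℤ).toNat : ℝ) = 2 * n + 1 := by
          rw [show (n + 1 - -n : ℤ).toNat = 2 * n + 1 by omega]; push_cast; ring
        rw [this, hs, Real.exp_neg, hN]
        ring)
    refine lt_of_le_of_lt (mul_le_mul_right hU _) ?_
    rw [← ofReal_mul hθ0]
    have h0 : 0 ≤ θ * (c + L + 1) := mul_nonneg hθ0 (by linarith)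
    refine lt_of_add_lt_add_right (lt_of_lt_of_le ?_ hL)
    rw [← ofReal_one, ← ofReal_add h0 zero_le_one, ofReal_lt_ofReal_iff (by nlinarith)]
    nlinarith

end Pool.Agent.Results.MP_e841a3_pr.Entropy
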